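import Mathlib

/-!
A subgroup of a free group containing some of the free generators has a free basis
containing these generators.
-/

noncomputable section

universe u

open CategoryTheory CategoryTheory.ActionCategory CategoryTheory.SingleObj Quiver FreeGroup
open IsFreeGroupoid

namespace Pool.Agent.Helper6.LemmaK

set_option backward.isDefEq.respectTransparency.types false in
/-- The action groupoid over a free group with explicit generators. -/
@[reducible] def actFree (X : Type u) (A : Type u) [MulAction (FreeGroup X) A] :
    IsFreeGroupoid (ActionCategory (FreeGroup X) A) where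
  quiverGenerators :=
    ⟨fun a b => { e : X // FreeGroup.of e • a.back = b.back }⟩
  of := fun (e : Subtype _) => ⟨FreeGroup.of e.1, e.property⟩
  unique_lift := by
    intro Y _ f
    let f' : X → (A → Y) ⋊[mulAutArrow] (FreeGroup X) := fun e =>
      ⟨fun b => @f ⟨(), _⟩ ⟨(), b⟩ ⟨e, smul_inv_smul _ b⟩, FreeGroup.of e⟩
    let F' : FreeGroup X →* (A → Y) ⋊[mulAutArrow] (FreeGroup X) := FreeGroup.lift f'
    have hF' : ∀ e, F' (FreeGroup.of e) = f' e := fun e => FreeGroup.lift_apply_of
    have uF' : ∀ E : FreeGroup X →* (A → Y) ⋊[mulAutArrow] (FreeGroup X),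
        (∀ e, E (FreeGroup.of e) = f' e) → E = F' := by
      intro E hE
      apply FreeGroup.ext_hom
      intro e
      rw [hE, hF']
    refine ⟨uncurry F' ?_, ?_, ?_⟩
    · suffices SemidirectProduct.rightHom.comp F' = MonoidHom.id _ by
        exact DFunLike.ext_iff.mp this
      apply FreeGroup.ext_hom
      intro x
      rw [MonoidHom.comp_apply, hF']
      rfl
    · rintro ⟨⟨⟩, a : A⟩ ⟨⟨⟩, b⟩ ⟨e, h : FreeGroup.of e • a = b⟩
      change (F' (FreeGroup.of _)).left _ = _
      rw [hF']
      cases inv_smul_eq_iff.mpr h.symm
      rfl
    · intro E hE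
      have : curry E = F' := by
        apply uF'
        intro e
        ext
        · convert! hE _ _ _
          rfl
        · rfl
      apply Functor.hext
      · intro
        apply Unit.ext
      · refine ActionCategory.cases ?_
        intros
        simp only [← this, uncurry_map, curry_apply_left, coe_back, homOfPair.val]
        rfl


section Tree

variable {G : Type u} [Groupoid.{u} G] [IsFreeGroupoid G]
  (T : WideSubquiver (Symmetrify <| Generators G)) [Arborescence T]

/-- The root of `T`, as an object of `G`. -/
def rt : G :=
  show T from root T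

set_option backward.isDefEq.respectTransparency.types false in
/-- A path in the tree gives a hom, by composition. -/
def homOfP : ∀ {a : G}, Path (root T) a → (rt T ⟶ a)
  | _, Path.nil => 𝟙 _
  | _, Path.cons p f => homOfP p ≫ Sum.recOn f.val (fun e => of e) fun e => inv (of e)

set_option backward.isDefEq.respectTransparency.types false in
/-- For every vertex `a`, the canonical hom from the root. -/
def treeH (a : G) : rt T ⟶ a :=
  homOfP T default

set_option backward.isDefEq.respectTransparency.types false in
theorem treeH_eq {a : G} (p : Path (root T) a) : treeH T a = homOfP T p := by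
  rw [treeH, Unique.default_eq]

@[simp]
theorem treeH_root : treeH T (rt T) = 𝟙 _ :=
    _root_.trans
    (treeH_eq T Path.nil) rfl

/-- Any hom in `G` can be made into a loop. -/
def loopOf {a b : G} (p : a ⟶ b) : End (rt T) :=
  treeH T a ≫ p ≫ inv (treeH T b)

set_option backward.isDefEq.respectTransparency false in
theorem loopOf_eq_id {a b : Generators G} (e) (H : e ∈ wideSubquiverSymmetrify T a b) :
    loopOf T (of e) = 𝟙 (rt T) := by
  rw [loopOf, ← Category.assoc, IsIso.comp_inv_eq, Category.id_comp]
  rcases H with H | H
  · rw [treeH_eq T (Path.cons default ⟨Sum.inl e, H⟩), homOfP]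
    rfl
  · rw [treeH_eq T (Path.cons default ⟨Sum.inr e, H⟩), homOfP]
    simp only [IsIso.inv_hom_id, Category.comp_id, Category.assoc, treeH]

set_option backward.isDefEq.respectTransparency.types false in
/-- Any homomorphism from the vertex group at the root extends to a functor. -/
@[simps]
def functorOf {X} [Monoid X] (f : End (rt T) →* X) :
    G ⥤ CategoryTheory.SingleObj X where
  obj _ := ()
  map p := f (loopOf T p)
  map_id := by
    intro a
    dsimp only [loopOf]
    rw [Category.id_comp, IsIso.hom_inv_id, ← End.one_def, f.map_one, id_as_one]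
  map_comp := by
    intros
    rw [comp_as_mul, ← f.map_mul]
    simp only [IsIso.inv_hom_id_assoc, loopOf, End.mul_def, Category.assoc]

/-- The index type of the free basis: edges outside the tree. -/
abbrev Idx : Type u := ((wideSubquiverEquivSetTotal <| wideSubquiverSymmetrify T)ᶜ : Set _)

set_option backward.isDefEq.respectTransparency false in
open scoped Classical in
theorem endUnique : ∀ {X : Type u} [Group X] (f : Idx T → X),
    ∃! F : End (rt T) →* X, ∀ e : Idx T, F (loopOf T (of e.val.hom)) = f e := by
      intro X _ f
      let f' : Labelling (Generators G) X := fun a b e =>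
        if h : e ∈ wideSubquiverSymmetrify T a b then 1 else f ⟨⟨a, b, e⟩, h⟩
      rcases unique_lift f' with ⟨F', hF', uF'⟩
      refine ⟨F'.mapEnd _, ?_, ?_⟩
      · suffices ∀ {x y} (q : x ⟶ y), F'.map (loopOf T q) = (F'.map q : X) by
          rintro ⟨⟨a, b, e⟩, h⟩
          simp only [Functor.mapEnd, DFunLike.coe, this, hF']
          exact dif_neg h
        intro x y q
        suffices ∀ {a} (p : Path (root T) a), F'.map (homOfP T p) = 1 by
          simp only [this, treeH, comp_as_mul, inv_as_inv, loopOf, inv_one, mul_one,
            one_mul, Functor.map_inv, Functor.map_comp]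
        intro a p
        induction p with
        | nil => rw [homOfP, F'.map_id, id_as_one]
        | cons p e ih =>
          rw [homOfP, F'.map_comp, comp_as_mul, ih, mul_one]
          rcases e with ⟨e | e, eT⟩
          · rw [hF']
            exact dif_pos (Or.inl eT)
          · rw [F'.map_inv, inv_as_inv, inv_eq_one, hF']
            exact dif_pos (Or.inr eT)
      · intro E hE
        ext x
        suffices (functorOf T E).map x = F'.map x by
          simpa only [loopOf, functorOf, IsIso.inv_id, treeH_root,
            Category.id_comp, Category.comp_id] using! this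
        congr
        apply uF'
        intro a b e
        change E (loopOf T _) = dite _ _ _
        split_ifs with h
        · rw [loopOf_eq_id T e h, ← End.one_def, E.map_one]
        · exact hE ⟨⟨a, b, e⟩, h⟩

/-- The free basis of the vertex group at the root. -/
def endBasis : FreeGroupBasis (Idx T) (End (rt T)) :=
  FreeGroupBasis.ofUniqueLift (Idx T) (fun e => loopOf T (of e.val.hom)) (endUnique T)


theorem endBasis_apply (e : Idx T) : endBasis T e = loopOf T (of e.val.hom) := by
  change FreeGroup.lift (fun e : Idx T => loopOf T (of e.val.hom)) (FreeGroup.of e) = _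
  rw [FreeGroup.lift_apply_of]

/-- The root as a vertex of the generating quiver. -/
def rg : Generators G := root T

set_option backward.isDefEq.respectTransparency.types false in
/-- A loop of the generating quiver at the root is not in the tree. -/
theorem loop_notMem (e : rg T ⟶ rg T) :
    e ∉ wideSubquiverSymmetrify T (rg T) (rg T) := by
  intro H
  rcases H with H | H
  · have : (Path.cons Path.nil ⟨Sum.inl e, H⟩ : Path (root T) (root T)) = Path.nil :=
      Subsingleton.elim _ _
    cases this
  · have : (Path.cons Path.nil ⟨Sum.inr e, H⟩ : Path (root T) (root T)) = Path.nil :=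
      Subsingleton.elim _ _
    cases this

set_option backward.isDefEq.respectTransparency.types false in
theorem loopOf_loop (e : rt T ⟶ rt T) : loopOf T e = e := by
  simp only [loopOf, treeH_root, IsIso.inv_id, Category.comp_id, Category.id_comp]

end Tree

section Main

variable (X : Type u) (B : Set X) (H : Subgroup (FreeGroup X))
  (hB : ∀ x ∈ B, FreeGroup.of x ∈ H)

/-- The action groupoid on cosets. -/
abbrev Gd : Type u := ActionCategory (FreeGroup X) (FreeGroup X ⧸ H)

/-- The base point. -/
abbrev bp : Gd X H := objEquiv (FreeGroup X) (FreeGroup X ⧸ H) ((1 : FreeGroup X) : FreeGroup X ⧸ H)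

theorem smul_one_coset (x : FreeGroup X) (hx : x ∈ H) :
    x • ((1 : FreeGroup X) : FreeGroup X ⧸ H) = ((1 : FreeGroup X) : FreeGroup X ⧸ H) := by
  rw [MulAction.Quotient.smul_coe, smul_eq_mul, mul_one]
  rw [QuotientGroup.eq]
  simpa using hx

end Main

attribute [local instance] actFree in
set_option backward.isDefEq.respectTransparency false in
theorem lemmaK_aux (X : Type u) (B : Set X) (H : Subgroup (FreeGroup X))
    (hB : ∀ x ∈ B, FreeGroup.of x ∈ H) :
    ∃ (I : Type u) (b : FreeGroupBasis I H) (j : B → I), Function.Injective j ∧
      ∀ x : B, ((b (j x) : H) : FreeGroup X) = FreeGroup.of (x : X) := by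
  let r : Symmetrify (Generators (Gd X H)) := bp X H
  have : RootedConnected r := IsFreeGroupoid.generators_connected (Gd X H) (bp X H)
  let T : WideSubquiver (Symmetrify (Generators (Gd X H))) := geodesicSubtree r
  let φ : End (rt T) ≃* H := endMulEquivSubgroup H
  let ed : ∀ x : B, rg T ⟶ rg T := fun x => ⟨x.1, smul_one_coset X H _ (hB x.1 x.2)⟩
  let j : B → Idx T := fun x => ⟨⟨rg T, rg T, ed x⟩, loop_notMem T (ed x)⟩
  refine ⟨Idx T, (endBasis T).map φ, j, ?_, ?_⟩
  · intro x y hxy
    have h1 : (⟨rg T, rg T, ed x⟩ : Total (Generators (Gd X H))) = ⟨rg T, rg T, ed y⟩ :=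
      congrArg Subtype.val hxy
    injection h1 with _ _ h2
    have h3 : (⟨x.1, smul_one_coset X H _ (hB x.1 x.2)⟩ :
        { e : X // FreeGroup.of e • ((1 : FreeGroup X) : FreeGroup X ⧸ H) =
          ((1 : FreeGroup X) : FreeGroup X ⧸ H) }) =
        ⟨y.1, smul_one_coset X H _ (hB y.1 y.2)⟩ := h2
    have h4 : x.1 = y.1 := congrArg (fun z : { e : X // FreeGroup.of e •
      ((1 : FreeGroup X) : FreeGroup X ⧸ H) = ((1 : FreeGroup X) : FreeGroup X ⧸ H) } => z.1) h3
    exact Subtype.ext h4
  · intro x
    rw [FreeGroupBasis.map_apply, endBasis_apply]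
    have h1 : loopOf T (IsFreeGroupoid.of (ed x)) = IsFreeGroupoid.of (ed x) := loopOf_loop T _
    change ((φ (loopOf T (IsFreeGroupoid.of (ed x))) : H) : FreeGroup X) = FreeGroup.of (x : X)
    rw [h1]
    rfl

/-- A subgroup of a free group that contains the generators in `B` has a free basis containing
these generators. -/
theorem lemmaK (X : Type u) (B : Set X) (H : Subgroup (FreeGroup X))
    (hB : ∀ x ∈ B, FreeGroup.of x ∈ H) :
    ∃ (N : Type u) (b : FreeGroupBasis (B ⊕ N) H),
      ∀ x : B, ((b (Sum.inl x) : H) : FreeGroup X) = FreeGroup.of (x : X) := by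
  classical
  obtain ⟨I, b, j, hj, hb⟩ := lemmaK_aux X B H hB
  let e : I ≃ B ⊕ ((Set.range j)ᶜ : Set I) :=
    (Equiv.Set.sumCompl (Set.range j)).symm.trans
      (Equiv.sumCongr (Equiv.ofInjective j hj).symm (Equiv.refl _))
  refine ⟨((Set.range j)ᶜ : Set I), b.reindex e, fun x => ?_⟩
  rw [FreeGroupBasis.reindex_apply]
  have : e.symm (Sum.inl x) = j x := by
    simp only [e, Equiv.symm_trans_apply, Equiv.symm_symm, Equiv.sumCongr_symm,
      Equiv.sumCongr_apply, Sum.map_inl, Equiv.ofInjective_apply]
    rfl
  rw [this, hb]

end Pool.Agent.Helper6.LemmaK
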