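import Mathlib

set_option autoImplicit false

namespace Pool.Agent.Helper6.SunSeq

open Finset Nat

/-- The summand of the closed formula. -/
noncomputable def c (A l : ℕ) : ℚ :=
  (-1) ^ l * (((2 * A + 3 * l + 2).choose A : ℚ) + ((2 * A + 3 * l + 1).choose A : ℚ)) *
    (Nat.centralBinom (A + 2 * l + 1) : ℚ) ^ 3 / 16 ^ (l + 2)

/-- The certificate polynomial. -/
def Q (n A : ℚ) : ℚ :=
  9 * A - 75 * A ^ 2 + 250 * A ^ 3 - 424 * A ^ 4 + 384 * A ^ 5 - 176 * A ^ 6 + 32 * A ^ 7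
  + n * (-27 + 414 * A - 2064 * A ^ 2 + 4818 * A ^ 3 - 5832 * A ^ 4 + 3648 * A ^ 5
      - 1056 * A ^ 6 + 96 * A ^ 7)
  + n ^ 2 * (-567 + 5610 * A - 20028 * A ^ 2 + 33726 * A ^ 3 - 28356 * A ^ 4 + 11208 * A ^ 5
      - 1584 * A ^ 6)
  + n ^ 3 * (-5012 + 36230 * A - 94182 * A ^ 2 + 110604 * A ^ 3 - 58704 * A ^ 4 + 11208 * A ^ 5)
  + n ^ 4 * (-24120 + 128004 * A - 232896 * A ^ 2 + 172584 * A ^ 3 - 44004 * A ^ 4)
  + n ^ 5 * (-68064 + 253680 * A - 291312 * A ^ 2 + 103392 * A ^ 3)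
  + n ^ 6 * (-112384 + 264544 * A - 145248 * A ^ 2)
  + n ^ 7 * (-100416 + 112896 * A)
  - 37440 * n ^ 8

/-- The telescoping certificate. -/
noncomputable def H (A l : ℕ) : ℚ :=
  (-1) ^ l * 8 * Q ((A : ℚ) + l) A * A * ((2 * A + 3 * l - 1)! : ℚ) *
    (Nat.centralBinom (A + 2 * l) : ℚ) ^ 3 /
    (((A + 3 * l + 2)! : ℚ) * (A ! : ℚ) * ((A : ℚ) + 2 * l + 1) ^ 3 * 16 ^ (l + 2))

lemma c_eq (A l : ℕ) : c A l = (-1) ^ l * (3 * (A : ℚ) + 6 * l + 4) * ((2 * A + 3 * l + 1)! : ℚ) *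
    (Nat.centralBinom (A + 2 * l + 1) : ℚ) ^ 3 /
    (((A + 3 * l + 2)! : ℚ) * (A ! : ℚ) * 16 ^ (l + 2)) := by
  unfold c
  have h1 : ((2 * A + 3 * l + 2).choose A : ℚ) =
      ((2 * A + 3 * l + 2)! : ℚ) / ((A ! : ℚ) * ((A + 3 * l + 2)! : ℚ)) := by
    have : 2 * A + 3 * l + 2 = A + (A + 3 * l + 2) := by ring
    rw [this, Nat.cast_add_choose]
  have h2 : ((2 * A + 3 * l + 1).choose A : ℚ) =
      ((2 * A + 3 * l + 1)! : ℚ) / ((A ! : ℚ) * ((A + 3 * l + 1)! : ℚ)) := by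
    have : 2 * A + 3 * l + 1 = A + (A + 3 * l + 1) := by ring
    rw [this, Nat.cast_add_choose]
  rw [h1, h2]
  have e1 : ((2 * A + 3 * l + 2)! : ℚ) = (2 * A + 3 * l + 2) * ((2 * A + 3 * l + 1)! : ℚ) := by
    rw [Nat.factorial_succ (2 * A + 3 * l + 1)]; push_cast; ring
  have e2 : ((A + 3 * l + 2)! : ℚ) = (A + 3 * l + 2) * ((A + 3 * l + 1)! : ℚ) := by
    rw [Nat.factorial_succ (A + 3 * l + 1)]; push_cast; ring
  rw [e1, e2]
  have f1 : ((A + 3 * l + 1)! : ℚ) ≠ 0 := by positivity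
  have f2 : (A ! : ℚ) ≠ 0 := by positivity
  have f3 : ((A : ℚ) + 3 * l + 2) ≠ 0 := by positivity
  field_simp
  ring

lemma cb_succ (j : ℕ) : (Nat.centralBinom (j + 1) : ℚ) =
    2 * (2 * j + 1) / (j + 1) * (Nat.centralBinom j : ℚ) := by
  have h := Nat.succ_mul_centralBinom_succ j
  have h' : ((j : ℚ) + 1) * (Nat.centralBinom (j + 1) : ℚ) =
      2 * (2 * j + 1) * (Nat.centralBinom j : ℚ) := by exact_mod_cast h
  have hj : ((j : ℚ) + 1) ≠ 0 := by positivity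
  field_simp
  linarith

lemma step (A l : ℕ) :
    (2 * ((A : ℚ) + l + 1) + 1) ^ 3 * c A (l + 1) - 32 * ((A : ℚ) + l + 1) ^ 3 * c A l =
      H (A + 1) l - H A (l + 1) := by
  rw [c_eq, c_eq]
  unfold H
  have i1 : 2 * (A + 1) + 3 * l - 1 = 2 * A + 3 * l + 1 := by omega
  have i2 : 2 * A + 3 * (l + 1) - 1 = 2 * A + 3 * l + 2 := by omega
  have i3 : A + 2 * (l + 1) + 1 = A + 2 * l + 1 + 1 + 1 := by ring
  have i4 : A + 1 + 2 * l = A + 2 * l + 1 := by ring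
  have i5 : A + 2 * (l + 1) = A + 2 * l + 1 + 1 := by ring
  have i6 : A + 1 + 3 * l + 2 = A + 3 * l + 2 + 1 := by ring
  have i7 : A + 3 * (l + 1) + 2 = A + 3 * l + 2 + 1 + 1 + 1 := by ring
  have i8 : 2 * A + 3 * (l + 1) + 1 = 2 * A + 3 * l + 1 + 1 + 1 + 1 := by ring
  have i9 : 2 * A + 3 * l + 2 = 2 * A + 3 * l + 1 + 1 := by ring
  rw [i1, i2, i3, i4, i5, i6, i7, i8, i9]
  rw [cb_succ (A + 2 * l + 1 + 1), cb_succ (A + 2 * l + 1)]
  simp only [Nat.factorial_succ (A + 3 * l + 2 + 1 + 1), Nat.factorial_succ (A + 3 * l + 2 + 1),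
    Nat.factorial_succ (A + 3 * l + 2), Nat.factorial_succ (2 * A + 3 * l + 1 + 1 + 1),
    Nat.factorial_succ (2 * A + 3 * l + 1 + 1), Nat.factorial_succ (2 * A + 3 * l + 1),
    Nat.factorial_succ A]
  generalize (Nat.centralBinom (A + 2 * l + 1) : ℚ) = w
  have g1 : ((2 * A + 3 * l + 1)! : ℚ) ≠ 0 := by positivity
  have g2 : ((A + 3 * l + 2)! : ℚ) ≠ 0 := by positivity
  have g3 : (A ! : ℚ) ≠ 0 := by positivity
  push_cast
  generalize ((2 * A + 3 * l + 1)! : ℚ) = x at *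
  generalize ((A + 3 * l + 2)! : ℚ) = y at *
  generalize (A ! : ℚ) = z at *
  have k1 : ((-1 : ℚ)) ^ (l + 1) = - (-1) ^ l := by ring
  rw [k1]
  generalize ((-1 : ℚ)) ^ l = s
  have k2 : (16 : ℚ) ^ (l + 1 + 2) = 16 ^ 3 * 16 ^ l := by ring
  have k3 : (16 : ℚ) ^ (l + 2) = 16 ^ 2 * 16 ^ l := by ring
  rw [k2, k3]
  have g4 : (16 : ℚ) ^ l ≠ 0 := by positivity
  generalize (16 : ℚ) ^ l = t at *
  unfold Q
  generalize hA : (A : ℚ) = a
  generalize hl : (l : ℚ) = b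
  have ha : 0 ≤ a := by rw [← hA]; positivity
  have hb : 0 ≤ b := by rw [← hl]; positivity
  have n1 : a + 2 * b + 1 + 1 ≠ 0 := by positivity
  have n2 : a + 2 * b + 1 + 1 + 1 ≠ 0 := by positivity
  have n3 : a + 3 * b + 2 + 1 ≠ 0 := by positivity
  have n4 : a + 3 * b + 2 + 1 + 1 ≠ 0 := by positivity
  have n5 : a + 3 * b + 2 + 1 + 1 + 1 ≠ 0 := by positivity
  have n6 : a + 1 ≠ 0 := by positivity
  have n7 : a + 1 + 2 * b + 1 ≠ 0 := by positivity
  have n8 : a + 2 * (b + 1) + 1 ≠ 0 := by positivity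
  field_simp
  ring

/-- The boundary contribution. -/
lemma boundary (n : ℕ) (hn : 1 ≤ n) :
    H n 0 + (2 * (n : ℚ) + 1) ^ 3 * c n 0 =
      (21 * (n : ℚ) ^ 3 + 22 * (n : ℚ) ^ 2 + 8 * n + 1) * ((2 * n - 1).choose n : ℚ) ^ 4 := by
  obtain ⟨m, rfl⟩ : ∃ m, n = m + 1 := ⟨n - 1, by omega⟩
  rw [c_eq]
  unfold H
  have j1 : 2 * (m + 1) - 1 = (m + 1) + m := by omega
  have j2 : 2 * (m + 1) + 3 * 0 - 1 = 2 * m + 1 := by omega
  have j3 : 2 * (m + 1) + 3 * 0 + 1 = 2 * m + 1 + 1 + 1 := by ring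
  have j4 : m + 1 + 3 * 0 + 2 = m + 1 + 1 + 1 := by ring
  have j5 : m + 1 + 2 * 0 + 1 = m + 1 + 1 := by ring
  have j6 : m + 1 + 2 * 0 = m + 1 := by ring
  rw [j1, j2, j3, j4, j5, j6, Nat.cast_add_choose]
  rw [cb_succ (m + 1), cb_succ m]
  have hcb : (Nat.centralBinom m : ℚ) = ((2 * m)! : ℚ) / ((m ! : ℚ) * (m ! : ℚ)) := by
    rw [Nat.centralBinom_eq_two_mul_choose]
    have : 2 * m = m + m := by ring
    rw [this, Nat.cast_add_choose]
  rw [hcb]
  have j7 : m + 1 + m = 2 * m + 1 := by ring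
  rw [j7]
  simp only [Nat.factorial_succ (m + 1 + 1), Nat.factorial_succ (m + 1),
    Nat.factorial_succ m, Nat.factorial_succ (2 * m + 1 + 1), Nat.factorial_succ (2 * m + 1),
    Nat.factorial_succ (2 * m)]
  have g1 : ((2 * m)! : ℚ) ≠ 0 := by positivity
  have g2 : (m ! : ℚ) ≠ 0 := by positivity
  push_cast
  generalize ((2 * m)! : ℚ) = x at *
  generalize (m ! : ℚ) = y at *
  unfold Q
  generalize hA : (m : ℚ) = a
  have ha : 0 ≤ a := by rw [← hA]; positivity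
  have n1 : a + 1 ≠ 0 := by positivity
  have n2 : a + 1 + 1 ≠ 0 := by positivity
  have n3 : a + 1 + 1 + 1 ≠ 0 := by positivity
  have n4 : a + 1 + 2 * 0 + 1 ≠ 0 := by positivity
  simp only [pow_zero, mul_zero, add_zero]
  field_simp
  ring

/-- The sum of the closed formula. -/
noncomputable def S (n : ℕ) : ℚ := ∑ A ∈ Finset.range (n + 1), c A (n - A)

lemma S_rec (n : ℕ) :
    (2 * ((n : ℚ) + 1) + 1) ^ 3 * S (n + 1) - 32 * ((n : ℚ) + 1) ^ 3 * S n =
      (21 * ((n : ℚ) + 1) ^ 3 + 22 * ((n : ℚ) + 1) ^ 2 + 8 * ((n : ℚ) + 1) + 1) *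
        ((2 * (n + 1) - 1).choose (n + 1) : ℚ) ^ 4 := by
  have hb := boundary (n + 1) (by omega)
  have hS : S (n + 1) = (∑ A ∈ Finset.range (n + 1), c A (n + 1 - A)) + c (n + 1) 0 := by
    unfold S
    rw [Finset.sum_range_succ]
    simp
  have htel : ∑ A ∈ Finset.range (n + 1), (H (A + 1) (n + 1 - (A + 1)) - H A (n + 1 - A)) =
      H (n + 1) (n + 1 - (n + 1)) - H 0 (n + 1 - 0) :=
    Finset.sum_range_sub (fun A => H A (n + 1 - A)) (n + 1)
  have h0 : H 0 (n + 1 - 0) = 0 := by unfold H; simp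
  have hnn : n + 1 - (n + 1) = 0 := by omega
  rw [h0, hnn, sub_zero] at htel
  have hterm : ∀ A ∈ Finset.range (n + 1),
      H (A + 1) (n + 1 - (A + 1)) - H A (n + 1 - A) =
      (2 * ((n : ℚ) + 1) + 1) ^ 3 * c A (n + 1 - A) - 32 * ((n : ℚ) + 1) ^ 3 * c A (n - A) := by
    intro A hA
    have hA' : A ≤ n := by simpa [Nat.lt_succ_iff] using hA
    have h := step A (n - A)
    have e1 : n + 1 - (A + 1) = n - A := by omega
    have e2 : n + 1 - A = n - A + 1 := by omega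
    have e3 : (A : ℚ) + ((n - A : ℕ) : ℚ) = n := by
      rw [Nat.cast_sub hA']; ring
    rw [e1, e2, ← h]
    rw [e3]
  rw [Finset.sum_congr rfl hterm, Finset.sum_sub_distrib, ← Finset.mul_sum, ← Finset.mul_sum]
    at htel
  rw [hS]
  have hSn : S n = ∑ A ∈ Finset.range (n + 1), c A (n - A) := rfl
  rw [← hSn] at htel
  push_cast at hb
  linear_combination hb + htel

/-- The hypothesis on a sequence used in both questions. -/
lemma eq_S (a : ℕ → ℚ) (h1 : a 1 = 2)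
    (hrec : ∀ n : ℕ, 2 ≤ n → (2 * (n : ℚ) + 1) ^ 3 * a n = 32 * (n : ℚ) ^ 3 * a (n - 1) +
      (21 * (n : ℚ) ^ 3 + 22 * (n : ℚ) ^ 2 + 8 * n + 1) * ((2 * n - 1).choose n : ℚ) ^ 4)
    (n : ℕ) (hn : 1 ≤ n) : a n = S n := by
  induction n, hn using Nat.le_induction with
  | base =>
    rw [h1]
    have h := S_rec 0
    have hS0 : S 0 = 1 / 16 := by
      unfold S c
      simp [Nat.centralBinom]
      norm_num [Nat.choose]
    rw [hS0] at h
    norm_num [Nat.choose] at h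
    linarith
  | succ m hm ih =>
    have hr := hrec (m + 1) (by omega)
    have hs := S_rec m
    have e : m + 1 - 1 = m := by omega
    rw [e, ih] at hr
    push_cast at hr
    have hpos : (2 * ((m : ℚ) + 1) + 1) ^ 3 ≠ 0 := by positivity
    apply mul_left_cancel₀ hpos
    linear_combination hr - hs

/-- A power of 16 clears the denominator. -/
lemma S_pow (n : ℕ) : ∃ z : ℤ, (16 : ℚ) ^ (n + 2) * S n = z := by
  unfold S
  rw [Finset.mul_sum]
  refine ⟨∑ A ∈ Finset.range (n + 1), 16 ^ A * ((-1) ^ (n - A) *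
    (((2 * A + 3 * (n - A) + 2).choose A : ℤ) + ((2 * A + 3 * (n - A) + 1).choose A : ℤ)) *
    (Nat.centralBinom (A + 2 * (n - A) + 1) : ℤ) ^ 3), ?_⟩
  push_cast
  apply Finset.sum_congr rfl
  intro A hA
  have hA' : A ≤ n := by simpa [Nat.lt_succ_iff] using hA
  unfold c
  have e : (16 : ℚ) ^ (n + 2) = 16 ^ A * 16 ^ (n - A + 2) := by
    rw [← pow_add]; congr 1; omega
  rw [e]
  have hne : (16 : ℚ) ^ (n - A + 2) ≠ 0 := by positivity
  field_simp

/-- An odd multiple is an integer as well. -/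
lemma odd_mul (a : ℕ → ℚ) (h1 : a 1 = 2)
    (hrec : ∀ n : ℕ, 2 ≤ n → (2 * (n : ℚ) + 1) ^ 3 * a n = 32 * (n : ℚ) ^ 3 * a (n - 1) +
      (21 * (n : ℚ) ^ 3 + 22 * (n : ℚ) ^ 2 + 8 * n + 1) * ((2 * n - 1).choose n : ℚ) ^ 4)
    (n : ℕ) (hn : 1 ≤ n) : ∃ d z : ℤ, Odd d ∧ (d : ℚ) * a n = z := by
  induction n, hn using Nat.le_induction with
  | base => exact ⟨1, 2, odd_one, by rw [h1]; norm_num⟩
  | succ m hm ih =>
    obtain ⟨d, z, hd, hz⟩ := ih
    have hr := hrec (m + 1) (by omega)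
    have e : m + 1 - 1 = m := by omega
    rw [e] at hr
    refine ⟨d * (2 * ((m : ℤ) + 1) + 1) ^ 3, 32 * ((m : ℤ) + 1) ^ 3 * z +
      d * ((21 * ((m : ℤ) + 1) ^ 3 + 22 * ((m : ℤ) + 1) ^ 2 + 8 * ((m : ℤ) + 1) + 1) *
      ((2 * (m + 1) - 1).choose (m + 1) : ℤ) ^ 4), ?_, ?_⟩
    · apply Odd.mul hd
      apply Odd.pow
      exact ⟨(m : ℤ) + 1, by ring⟩
    · push_cast at hr ⊢
      linear_combination (d : ℚ) * hr + 32 * ((m : ℚ) + 1) ^ 3 * hz

lemma int_of (q : ℚ) (k : ℕ) (h16 : ∃ z : ℤ, (16 : ℚ) ^ k * q = z)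
    (hodd : ∃ d z : ℤ, Odd d ∧ (d : ℚ) * q = z) : ∃ m : ℤ, q = m := by
  obtain ⟨z1, hz1⟩ := h16
  obtain ⟨d, z2, hd, hz2⟩ := hodd
  have hcop : IsCoprime (16 ^ k : ℤ) d := by
    have h2 : IsCoprime (2 : ℤ) d := by
      obtain ⟨t, ht⟩ := hd
      exact ⟨-t, 1, by rw [ht]; ring⟩
    have : (16 ^ k : ℤ) = 2 ^ (4 * k) := by rw [pow_mul]; norm_num
    rw [this]
    exact h2.pow_left
  obtain ⟨u, v, huv⟩ := hcop
  refine ⟨u * z1 + v * z2, ?_⟩
  have huv' : (u : ℚ) * 16 ^ k + v * d = 1 := by exact_mod_cast huv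
  push_cast
  rw [← hz1, ← hz2]
  linear_combination (-q) * huv'

/-- Integrality. -/
theorem integral (a : ℕ → ℚ) (h1 : a 1 = 2)
    (hrec : ∀ n : ℕ, 2 ≤ n → (2 * (n : ℚ) + 1) ^ 3 * a n = 32 * (n : ℚ) ^ 3 * a (n - 1) +
      (21 * (n : ℚ) ^ 3 + 22 * (n : ℚ) ^ 2 + 8 * n + 1) * ((2 * n - 1).choose n : ℚ) ^ 4)
    (n : ℕ) (hn : 1 ≤ n) : ∃ m : ℤ, a n = m := by
  apply int_of (a n) (n + 2)
  · rw [eq_S a h1 hrec n hn]; exact S_pow n
  · exact odd_mul a h1 hrec n hn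

theorem pos (a : ℕ → ℚ) (h1 : a 1 = 2)
    (hrec : ∀ n : ℕ, 2 ≤ n → (2 * (n : ℚ) + 1) ^ 3 * a n = 32 * (n : ℚ) ^ 3 * a (n - 1) +
      (21 * (n : ℚ) ^ 3 + 22 * (n : ℚ) ^ 2 + 8 * n + 1) * ((2 * n - 1).choose n : ℚ) ^ 4)
    (n : ℕ) (hn : 1 ≤ n) : 0 < a n := by
  induction n, hn using Nat.le_induction with
  | base => rw [h1]; norm_num
  | succ m hm ih =>
    have hr := hrec (m + 1) (by omega)
    have e : m + 1 - 1 = m := by omega
    rw [e] at hr
    have hpos : (0 : ℚ) < (2 * ((m + 1 : ℕ) : ℚ) + 1) ^ 3 := by positivity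
    have hr' : 0 < (2 * ((m + 1 : ℕ) : ℚ) + 1) ^ 3 * a (m + 1) := by
      rw [hr]
      have : 0 < 32 * ((m + 1 : ℕ) : ℚ) ^ 3 * a m := by positivity
      positivity
    exact (mul_pos_iff_of_pos_left hpos).mp hr'

lemma choose_odd (n : ℕ) (hn : 1 ≤ n) : Odd ((2 * n - 1).choose n) ↔ ∃ k : ℕ, n = 2 ^ k := by
  induction n using Nat.strong_induction_on with
  | _ n ih =>
    rcases Nat.even_or_odd' n with ⟨m, hm | hm⟩
    · have hm1 : 1 ≤ m := by omega
      have hL := @Choose.choose_modEq_choose_mod_mul_choose_div_nat (2 * n - 1) n 2 _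
      have e1 : (2 * n - 1) % 2 = 1 := by omega
      have e2 : n % 2 = 0 := by omega
      have e3 : (2 * n - 1) / 2 = 2 * m - 1 := by omega
      have e4 : n / 2 = m := by omega
      rw [e1, e2, e3, e4] at hL
      have hpar : Odd ((2 * n - 1).choose n) ↔ Odd ((2 * m - 1).choose m) := by
        rw [Nat.odd_iff, Nat.odd_iff]
        unfold Nat.ModEq at hL
        rw [hL]
        simp
      rw [hpar, ih m (by omega) hm1]
      constructor
      · rintro ⟨k, hk⟩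
        exact ⟨k + 1, by rw [hm, hk, pow_succ]; ring⟩
      · rintro ⟨k, hk⟩
        rcases k with _ | k
        · omega
        · exact ⟨k, by rw [pow_succ] at hk; omega⟩
    · rcases Nat.eq_zero_or_pos m with h0 | hpos
      · subst h0
        have : n = 1 := by omega
        subst this
        constructor
        · intro _; exact ⟨0, by norm_num⟩
        · intro _; decide
      · have hL := @Choose.choose_modEq_choose_mod_mul_choose_div_nat (2 * n - 1) n 2 _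
        have e1 : (2 * n - 1) % 2 = 1 := by omega
        have e2 : n % 2 = 1 := by omega
        have e3 : (2 * n - 1) / 2 = 2 * m := by omega
        have e4 : n / 2 = m := by omega
        rw [e1, e2, e3, e4] at hL
        have hc : 2 ∣ (2 * m).choose m := by
          have := Nat.two_dvd_centralBinom_of_one_le hpos
          rwa [Nat.centralBinom_eq_two_mul_choose] at this
        constructor
        · intro hodd
          exfalso
          rw [Nat.odd_iff] at hodd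
          unfold Nat.ModEq at hL
          rw [hodd] at hL
          obtain ⟨t, ht⟩ := hc
          rw [ht] at hL
          simp at hL
        · rintro ⟨k, hk⟩
          exfalso
          rcases k with _ | k
          · simp at hk; omega
          · rw [pow_succ] at hk; omega

/-- Parity. -/
theorem parity (a : ℕ → ℚ) (h1 : a 1 = 2)
    (hrec : ∀ n : ℕ, 2 ≤ n → (2 * (n : ℚ) + 1) ^ 3 * a n = 32 * (n : ℚ) ^ 3 * a (n - 1) +
      (21 * (n : ℚ) ^ 3 + 22 * (n : ℚ) ^ 2 + 8 * n + 1) * ((2 * n - 1).choose n : ℚ) ^ 4)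
    (n : ℕ) (hn : 1 ≤ n) :
    (∃ m : ℤ, Odd m ∧ a n = m) ↔ ∃ k : ℕ, 1 ≤ k ∧ n = 2 ^ k := by
  rcases Nat.lt_or_ge n 2 with hlt | hge
  · have hn1 : n = 1 := by omega
    subst hn1
    constructor
    · rintro ⟨m, hm, hma⟩
      rw [h1] at hma
      have : m = 2 := by exact_mod_cast hma.symm
      subst this
      exact absurd hm (by decide)
    · rintro ⟨k, hk, h⟩
      exfalso
      rcases k with _ | k
      · omega
      · rw [pow_succ] at h; omega
  · obtain ⟨m, hm⟩ := integral a h1 hrec n hn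
    obtain ⟨m', hm'⟩ := integral a h1 hrec (n - 1) (by omega)
    have hr := hrec n hge
    rw [hm, hm'] at hr
    have hz : (2 * (n : ℤ) + 1) ^ 3 * m = 32 * (n : ℤ) ^ 3 * m' +
      (21 * (n : ℤ) ^ 3 + 22 * (n : ℤ) ^ 2 + 8 * n + 1) * ((2 * n - 1).choose n : ℤ) ^ 4 := by
      exact_mod_cast hr
    have hodd1 : Odd ((2 * (n : ℤ) + 1) ^ 3) := Odd.pow ⟨(n : ℤ), by ring⟩
    have heven : Even (32 * (n : ℤ) ^ 3 * m') := ⟨16 * (n : ℤ) ^ 3 * m', by ring⟩
    have key : Odd m ↔ Even (n : ℤ) ∧ Odd ((2 * n - 1).choose n : ℤ) := by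
      have h1' : Odd m ↔ Odd ((2 * (n : ℤ) + 1) ^ 3 * m) := by
        rw [Int.odd_mul]; exact ⟨fun h => ⟨hodd1, h⟩, fun h => h.2⟩
      rw [h1', hz, Int.odd_add]
      have hP : Odd (21 * (n : ℤ) ^ 3 + 22 * (n : ℤ) ^ 2 + 8 * n + 1) ↔ Even (n : ℤ) := by
        constructor
        · intro h
          by_contra hne
          rw [Int.not_even_iff_odd] at hne
          obtain ⟨t, ht⟩ := hne
          rw [ht] at h
          obtain ⟨s, hs⟩ := h
          have : (21 * (2 * t + 1) ^ 3 + 22 * (2 * t + 1) ^ 2 + 8 * (2 * t + 1) + 1 : ℤ) =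
            2 * (84 * t ^ 3 + 126 * t ^ 2 + 63 * t + 44 * t ^ 2 + 44 * t + 8 * t + 26) := by ring
          omega
        · rintro ⟨t, ht⟩
          rw [ht]
          exact ⟨84 * t ^ 3 + 44 * t ^ 2 + 8 * t, by ring⟩
      constructor
      · intro h
        by_contra hcon
        have hnot : Even ((21 * (n : ℤ) ^ 3 + 22 * (n : ℤ) ^ 2 + 8 * n + 1) *
          ((2 * n - 1).choose n : ℤ) ^ 4) := by
          rw [← Int.not_odd_iff_even, Int.odd_mul, hP,
            Int.odd_pow' (by norm_num : (4 : ℕ) ≠ 0)]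
          exact hcon
        exact (Int.not_odd_iff_even.mpr heven) (h.mpr hnot)
      · intro hcon
        have hodd2 : Odd ((21 * (n : ℤ) ^ 3 + 22 * (n : ℤ) ^ 2 + 8 * n + 1) *
          ((2 * n - 1).choose n : ℤ) ^ 4) := by
          rw [Int.odd_mul, hP, Int.odd_pow' (by norm_num : (4 : ℕ) ≠ 0)]
          exact hcon
        constructor
        · intro h
          exact absurd heven (Int.not_even_iff_odd.mpr h)
        · intro h
          exact absurd h (Int.not_even_iff_odd.mpr hodd2)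
    have hcast : Odd ((2 * n - 1).choose n : ℤ) ↔ Odd ((2 * n - 1).choose n) := by
      exact_mod_cast Iff.rfl
    have hcast2 : Even (n : ℤ) ↔ Even n := by exact_mod_cast Iff.rfl
    rw [hcast, hcast2, choose_odd n hn] at key
    constructor
    · rintro ⟨q, hq, hqa⟩
      rw [hm] at hqa
      have hqm : m = q := by exact_mod_cast hqa
      rw [← hqm] at hq
      obtain ⟨he, k, hk⟩ := key.mp hq
      refine ⟨k, ?_, hk⟩
      rcases k with _ | k
      · omega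
      · omega
    · rintro ⟨k, hk, hkn⟩
      refine ⟨m, key.mpr ⟨?_, k, hkn⟩, hm⟩
      rcases k with _ | k
      · omega
      · rw [hkn, pow_succ]; exact ⟨2 ^ k, by ring⟩

end Pool.Agent.Helper6.SunSeq
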